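import Mathlib
import Pool.Agent.R286.MG.Stm
import Pool.Agent.R286.MG.Mon
import Pool.Agent.R286.MG.Bump
import Pool.Agent.R286.MG.Phi
import Pool.Agent.R286.MG.En
import Pool.Agent.R286.MG.HS
import Pool.Agent.R286.MG.Cell
import Pool.Agent.R286.MG.Fin
import Pool.Agent.R286.MG.IL

/-!
# Reconstructing magnified copies with `d + 1` test sets (MP_b01677_an, Q1 and Q2: yes)

For every `d ≥ 2` and every bounded Lebesgue measurable `E ⊆ ℝ^d` of positive measure, an element of
`{r E + x : r ≥ 1, x ∈ ℝ^d}` can be reconstructed using `d + 1` test sets.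
-/

set_option autoImplicit false

open MeasureTheory

namespace Pool.Agent.Results.MP_b01677_an.MagnifiedCopies

/-- An element of the family `𝒜` of subsets of `ℝ^d` can be reconstructed using `n` test sets. -/
def CanReconstruct {d : ℕ} (𝒜 : Set (Set (Fin d → ℝ))) (n : ℕ) : Prop :=
  ∃ T : Fin n → Set (Fin d → ℝ), (∀ i, MeasurableSet (T i)) ∧ ∀ A ∈ 𝒜, ∀ B ∈ 𝒜,
    (∀ i, volume (A ∩ T i) = volume (B ∩ T i)) → A = B

/-- The magnified copies `r E + x`, `r ≥ 1`, of `E`. -/
def Magnified {d : ℕ} (E : Set (Fin d → ℝ)) : Set (Set (Fin d → ℝ)) :=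
  {A | ∃ r : ℝ, 1 ≤ r ∧ ∃ x : Fin d → ℝ, A = (fun y => r • y + x) '' E}

/-- **Main result.** -/
theorem result (d : ℕ) (hd : 2 ≤ d) (E : Set (Fin d → ℝ)) (hE : NullMeasurableSet E volume)
    (hb : Bornology.IsBounded E) (hpos : 0 < volume E) : CanReconstruct (Magnified E) (d + 1) := by
  have hIL : Pool.Agent.R286.MG.StIL d := Pool.Agent.R286.MG.il d hd Pool.Agent.R286.MG.bump
    Pool.Agent.R286.MG.phi Pool.Agent.R286.MG.en Pool.Agent.R286.MG.hoef Pool.Agent.R286.MG.scale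
  exact Pool.Agent.R286.MG.fin d hd (Pool.Agent.R286.MG.mon d hd)
    (Pool.Agent.R286.MG.cell_of_il d hIL) E hE hb hpos

end Pool.Agent.Results.MP_b01677_an.MagnifiedCopies
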